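import Pool.Agent.W602.RG.Stm

/-! # Removing one function from a family with sum zero -/

set_option autoImplicit false

namespace Pool.Agent.W340.RG.WSW

open Pool.Agent.W602.RG

theorem wr_eq {L E : Type} [Field L] [Field E] [Algebra L E] (D : Derivation L E E) {r : ℕ}
    (g : Fin r → E) : Wr D g = Pool.Agent.W603.LV.wr D g := by
  unfold Wr Pool.Agent.W603.LV.wr
  rw [← Matrix.det_transpose]
  rfl

theorem main : S_WSW := by
  intro L E _ _ _ D r g hg i j
  rw [wr_eq, wr_eq]
  exact Pool.Agent.W603.LV.wr_succAbove D g hg i j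

end Pool.Agent.W340.RG.WSW
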